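import Pool.Agent.H29.TOW.S

/-!
# TOW, row USLM: products and unit classes
-/

set_option autoImplicit false

namespace Pool.TOW

open Polynomial Pool.HYP

theorem uslm : USLMStmt := by
  intro L _ O f _
  refine ⟨?_, ?_⟩
  · rintro h h' ⟨s, p, hs, hd, a, b, hu⟩ ⟨s', p', hs', hd', a', b', hu'⟩
    refine ⟨s * s', p * p', hs.mul_left hs', ?_, ?_⟩
    · obtain ⟨e, he⟩ := hd
      obtain ⟨e', he'⟩ := hd'
      refine ⟨e * (h' * s' ^ 2) + e' * oL O p, ?_⟩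
      have h1 : oL O (p * p') = oL O p * oL O p' := Polynomial.map_mul _
      rw [h1]
      linear_combination (h' * s' ^ 2) * he + oL O p * he'
    · have h1 : rd O (p * p') = rd O p * rd O p' := Polynomial.map_mul _
      rw [h1]
      exact IsCoprime.mul_left ⟨a, b, hu⟩ ⟨a', b', hu'⟩
  · rintro h h' s ⟨a, b, hab⟩ ⟨e, he⟩ ⟨s₁, p, hs₁, ⟨e₁, he₁⟩, hu⟩
    refine ⟨s₁ * a, p, hs₁.mul_left ⟨s, b, by linear_combination hab⟩, ?_, hu⟩
    refine ⟨e * (s₁ ^ 2 * a ^ 2) - h * s₁ ^ 2 * b * (a * s + 1) + e₁, ?_⟩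
    linear_combination (s₁ ^ 2 * a ^ 2) * he + he₁ + (h * s₁ ^ 2 * (a * s + 1)) * hab

end Pool.TOW
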